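import Pool.Agent.Helper75.Torus.Goals

set_option autoImplicit false

open Set MeasureTheory Matrix

namespace Pool.Agent.Helper65.Torus

open Pool.Agent.Helper75.Torus
open Pool.Agent.Helper75.Flow (curlL)

theorem abs_le_n (x : E) (i : Fin 3) : |x i| ≤ ‖x‖ := norm_le_pi_norm x i

theorem norm_le_of (x : E) (c : ℝ) (hc : 0 ≤ c) (h : ∀ i, |x i| ≤ c) : ‖x‖ ≤ c :=
  (pi_norm_le_iff_of_nonneg hc).2 h

theorem expand (x : E) : x = ∑ l, x l • (Pi.single l (1 : ℝ) : E) := by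
  funext i
  fin_cases i <;> simp [Fin.sum_univ_three]

theorem clm_expand (L : E →L[ℝ] ℝ) (w : E) : L w = ∑ l, w l * L (Pi.single l 1) := by
  conv_lhs => rw [expand w]
  rw [map_sum]
  apply Finset.sum_congr rfl
  intro l _
  rw [map_smul, smul_eq_mul]

theorem dot_le (a b : E) : |a ⬝ᵥ b| ≤ 3 * (‖a‖ * ‖b‖) := by
  rw [dotProduct, Fin.sum_univ_three]
  have h : ∀ i, |a i * b i| ≤ ‖a‖ * ‖b‖ := fun i => by
    rw [abs_mul]
    exact mul_le_mul (abs_le_n a i) (abs_le_n b i) (abs_nonneg _) (norm_nonneg _)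
  have h0 := h 0
  have h1 := h 1
  have h2 := h 2
  have := abs_add_three (a 0 * b 0) (a 1 * b 1) (a 2 * b 2)
  linarith

theorem cross_le (a b : E) : ‖crossProduct a b‖ ≤ 2 * (‖a‖ * ‖b‖) := by
  apply norm_le_of _ _ (by positivity)
  have h : ∀ i j, |a i * b j| ≤ ‖a‖ * ‖b‖ := fun i j => by
    rw [abs_mul]
    exact mul_le_mul (abs_le_n a i) (abs_le_n b j) (abs_nonneg _) (norm_nonneg _)
  intro i
  rw [cross_apply]
  fin_cases i
  · show |a 1 * b 2 - a 2 * b 1| ≤ _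
    have := abs_sub (a 1 * b 2) (a 2 * b 1)
    linarith [h 1 2, h 2 1]
  · show |a 2 * b 0 - a 0 * b 2| ≤ _
    have := abs_sub (a 2 * b 0) (a 0 * b 2)
    linarith [h 2 0, h 0 2]
  · show |a 0 * b 1 - a 1 * b 0| ≤ _
    have := abs_sub (a 0 * b 1) (a 1 * b 0)
    linarith [h 0 1, h 1 0]

theorem ee_norm (i : Fin 3) : ‖ee i‖ = 1 := by
  unfold ee
  rw [Pi.norm_single, norm_one]

theorem J_le (J : E →L[ℝ] E) (B : ℝ) (hJ : ‖J‖ ≤ B) (z : E) : ‖J z‖ ≤ B * ‖z‖ :=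
  J.le_of_opNorm_le hJ z

theorem Jee_le (J : E →L[ℝ] E) (B : ℝ) (hJ : ‖J‖ ≤ B) (i : Fin 3) : ‖J (ee i)‖ ≤ B := by
  have := J_le J B hJ (ee i)
  rwa [ee_norm, mul_one] at this

theorem cof_le (J : E →L[ℝ] E) (B : ℝ) (hB : 0 ≤ B) (hJ : ‖J‖ ≤ B) (z : E) :
    ‖cofv J z‖ ≤ 6 * B ^ 2 * ‖z‖ := by
  have hc : ∀ i j, ‖crossProduct (J (ee i)) (J (ee j))‖ ≤ 2 * B ^ 2 := fun i j => by
    refine (cross_le _ _).trans ?_
    have := mul_le_mul (Jee_le J B hJ i) (Jee_le J B hJ j) (norm_nonneg _) hB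
    nlinarith
  have hs : ∀ (l i j : Fin 3), ‖z l • crossProduct (J (ee i)) (J (ee j))‖ ≤ ‖z‖ * (2 * B ^ 2) :=
    fun l i j => by
      rw [norm_smul, Real.norm_eq_abs]
      exact mul_le_mul (abs_le_n z l) (hc i j) (norm_nonneg _) (norm_nonneg _)
  unfold cofv
  have h := norm_add₃_le (a := z 0 • crossProduct (J (ee 1)) (J (ee 2)))
    (b := z 1 • crossProduct (J (ee 2)) (J (ee 0))) (c := z 2 • crossProduct (J (ee 0)) (J (ee 1)))
  linarith [hs 0 1 2, hs 1 2 0, hs 2 0 1]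

theorem inv_le (J : E →L[ℝ] E) (B : ℝ) (hB : 0 ≤ B) (hJ : ‖J‖ ≤ B) (z : E) :
    ‖inv3 J z‖ ≤ 18 * B ^ 2 * ‖z‖ := by
  apply norm_le_of _ _ (by positivity)
  intro i
  unfold inv3
  have h1 := dot_le (cofv J (ee i)) z
  have h2 := cof_le J B hB hJ (ee i)
  rw [ee_norm, mul_one] at h2
  have h3 := mul_le_mul_of_nonneg_right h2 (norm_nonneg z)
  linarith

theorem trn_le (J : E →L[ℝ] E) (B : ℝ) (hB : 0 ≤ B) (hJ : ‖J‖ ≤ B) (z : E) :
    ‖trn J z‖ ≤ 3 * B * ‖z‖ := by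
  apply norm_le_of _ _ (by positivity)
  intro i
  unfold trn
  have h1 := dot_le z (J (ee i))
  have h3 := mul_le_mul_of_nonneg_left (Jee_le J B hJ i) (norm_nonneg z)
  linarith

/-- `trn J` as a linear map -/
noncomputable def trnL (J : E →L[ℝ] E) : E →ₗ[ℝ] E where
  toFun := trn J
  map_add' x y := by
    funext i
    simp [trn, add_dotProduct]
  map_smul' c x := by
    funext i
    simp [trn, smul_dotProduct]

/-- the coefficient field as a linear map -/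
noncomputable def Lv (J : E →L[ℝ] E) (s : ℝ) (om p p' : E) : E →ₗ[ℝ] E :=
  s • LinearMap.id + (trnL J).comp ((J : E →ₗ[ℝ] E).comp (crossProduct.flip p')) +
    (crossProduct om).comp (crossProduct.flip p)

theorem Lv_apply (J : E →L[ℝ] E) (s : ℝ) (om p p' G : E) :
    Lv J s om p p' G = s • G + trn J (J (crossProduct G p')) +
      crossProduct om (crossProduct G p) := rfl

theorem Lv_le (J : E →L[ℝ] E) (s : ℝ) (om p p' : E) (B S P : ℝ) (hB : 0 ≤ B) (hJ : ‖J‖ ≤ B)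
    (hs : |s| ≤ S) (hom : ‖om‖ ≤ B) (hp : ‖p‖ ≤ P) (hp' : ‖p'‖ ≤ P) (l : Fin 3) :
    ‖Lv J s om p p' (ee l)‖ ≤ S + 6 * B ^ 2 * P + 4 * B * P := by
  rw [Lv_apply]
  have h1 : ‖s • ee l‖ ≤ S := by rw [norm_smul, ee_norm, mul_one]; exact hs
  have hP : 0 ≤ P := (norm_nonneg p).trans hp
  have hc : ∀ z : E, ‖z‖ ≤ P → ‖crossProduct (ee l) z‖ ≤ 2 * P := fun z hz => by
    have := cross_le (ee l) z
    rw [ee_norm, one_mul] at this
    linarith
  have h2 : ‖trn J (J (crossProduct (ee l) p'))‖ ≤ 6 * B ^ 2 * P := by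
    have a1 := trn_le J B hB hJ (J (crossProduct (ee l) p'))
    have a2 := J_le J B hJ (crossProduct (ee l) p')
    have a3 := mul_le_mul_of_nonneg_left (hc p' hp') hB
    have a4 : 3 * B * ‖J (crossProduct (ee l) p')‖ ≤ 3 * B * (B * (2 * P)) :=
      mul_le_mul_of_nonneg_left (a2.trans a3) (by positivity)
    nlinarith
  have h3 : ‖crossProduct om (crossProduct (ee l) p)‖ ≤ 4 * B * P := by
    have a1 := cross_le om (crossProduct (ee l) p)
    have a2 := mul_le_mul hom (hc p hp) (norm_nonneg _) hB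
    linarith
  have := norm_add₃_le (a := s • ee l) (b := trn J (J (crossProduct (ee l) p')))
    (c := crossProduct om (crossProduct (ee l) p))
  linarith

theorem Lv_expand (J : E →L[ℝ] E) (s : ℝ) (om p p' G : E) (i : Fin 3) :
    Lv J s om p p' G i = ∑ l, G l * Lv J s om p p' (ee l) i := by
  conv_lhs => rw [expand G]
  rw [map_sum, Finset.sum_apply]
  apply Finset.sum_congr rfl
  intro l _
  rw [map_smul, Pi.smul_apply, smul_eq_mul]
  rfl

/-- the coefficients of the first part -/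
noncomputable def cc (J : E →L[ℝ] E) (s : ℝ) (om p p' : E) (m l : Fin 3) : ℝ :=
  ∑ i, cofv J (ee i) m * Lv J s om p p' (ee l) i

theorem cc_le (J : E →L[ℝ] E) (s : ℝ) (om p p' : E) (B S P : ℝ) (hB : 0 ≤ B) (hJ : ‖J‖ ≤ B)
    (hs : |s| ≤ S) (hom : ‖om‖ ≤ B) (hp : ‖p‖ ≤ P) (hp' : ‖p'‖ ≤ P) (m l : Fin 3) :
    |cc J s om p p' m l| ≤ 3 * ((6 * B ^ 2) * (S + 6 * B ^ 2 * P + 4 * B * P)) := by
  unfold cc
  have hL := Lv_le J s om p p' B S P hB hJ hs hom hp hp' l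
  have h : ∀ i, |cofv J (ee i) m * Lv J s om p p' (ee l) i| ≤
      (6 * B ^ 2) * (S + 6 * B ^ 2 * P + 4 * B * P) := fun i => by
    rw [abs_mul]
    have h2 := cof_le J B hB hJ (ee i)
    rw [ee_norm, mul_one] at h2
    exact mul_le_mul ((abs_le_n _ m).trans h2) ((abs_le_n _ i).trans hL) (abs_nonneg _)
      (by positivity)
  refine (Finset.abs_sum_le_sum_abs _ _).trans ((Finset.sum_le_sum fun i _ => h i).trans ?_)
  simp

theorem first_expand (J : E →L[ℝ] E) (s : ℝ) (om p p' w G : E) :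
    inv3 J w ⬝ᵥ Lv J s om p p' G = ∑ m, ∑ l, cc J s om p p' m l * (w m * G l) := by
  unfold cc inv3
  simp only [dotProduct, Lv_expand J s om p p' G, Fin.sum_univ_three]
  ring

/-! ### the rescaled field -/

theorem contDiff_field {α K : ℝ} {v : E → E} (hv : ∀ i, Hol α K (fun z => v z i)) :
    ContDiff ℝ 1 v := contDiff_pi.2 fun i => (hv i).1

theorem fderiv_comp_apply {v : E → E} (hv : ContDiff ℝ 1 v) (x w : E) (m : Fin 3) :
    fderiv ℝ v x w m = fderiv ℝ (fun z => v z m) x w := by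
  have h := (hasFDerivAt_pi'.1 ((hv.differentiable one_ne_zero) x).hasFDerivAt m).fderiv
  rw [h]
  rfl

theorem wr_hasFDerivAt {v : E → E} (hv : ContDiff ℝ 1 v) (x : E) (lam c : ℝ) (J : E →L[ℝ] E)
    (m : Fin 3) (Y : E) :
    HasFDerivAt (fun Y => c * wr v x lam J Y m)
      (c • ((fderiv ℝ (fun z => v z m) (x + lam⁻¹ • J Y)).comp (lam⁻¹ • J) -
        lam⁻¹ • (fderiv ℝ (fun z => v z m) x).comp J)) Y := by
  have hf : Differentiable ℝ (fun z => v z m) :=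
    ((contDiff_pi.1 hv m).differentiable one_ne_zero)
  have h1 : HasFDerivAt (fun Y => x + lam⁻¹ • J Y) (lam⁻¹ • J) Y :=
    ((J.hasFDerivAt (x := Y)).const_smul lam⁻¹).const_add x
  have h2 : HasFDerivAt (fun Y => v (x + lam⁻¹ • J Y) m)
      ((fderiv ℝ (fun z => v z m) (x + lam⁻¹ • J Y)).comp (lam⁻¹ • J)) Y :=
    HasFDerivAt.comp (g := fun z => v z m) (f := fun Y => x + lam⁻¹ • J Y) Y
      ((hf (x + lam⁻¹ • J Y)).hasFDerivAt) h1
  have h3 : HasFDerivAt (fun Y => lam⁻¹ • (fderiv ℝ (fun z => v z m) x) (J Y))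
      (lam⁻¹ • (fderiv ℝ (fun z => v z m) x).comp J) Y :=
    (((fderiv ℝ (fun z => v z m) x).comp J).hasFDerivAt (x := Y)).const_smul lam⁻¹
  have h4 := ((h2.sub_const (v x m)).sub h3).const_mul c
  refine h4.congr_of_eventuallyEq (Filter.Eventually.of_forall fun Z => ?_)
  show c * wr v x lam J Z m = c * (v (x + lam⁻¹ • J Z) m - v x m -
    lam⁻¹ • (fderiv ℝ (fun z => v z m) x) (J Z))
  unfold wr
  rw [Pi.sub_apply, Pi.sub_apply, Pi.smul_apply, fderiv_comp_apply hv]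

theorem wr_pd {v : E → E} (hv : ContDiff ℝ 1 v) (x : E) (lam c : ℝ) (J : E →L[ℝ] E)
    (m j : Fin 3) (Y : E) :
    pd j (fun Y => c * wr v x lam J Y m) Y =
      c * lam⁻¹ * ∑ l, J (ee j) l * (pd l (fun z => v z m) (x + lam⁻¹ • J Y) -
        pd l (fun z => v z m) x) := by
  unfold pd
  rw [(wr_hasFDerivAt hv x lam c J m Y).fderiv]
  have e : ∀ L : E →L[ℝ] ℝ, L (J (ee j)) = ∑ l, J (ee j) l * L (Pi.single l 1) :=
    fun L => clm_expand L (J (ee j))
  have e1 := e (fderiv ℝ (fun z => v z m) (x + lam⁻¹ • J Y))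
  have e2 := e (fderiv ℝ (fun z => v z m) x)
  show c * ((fderiv ℝ (fun z => v z m) (x + lam⁻¹ • J Y)) (lam⁻¹ • J (ee j)) -
    lam⁻¹ * (fderiv ℝ (fun z => v z m) x) (J (ee j))) = _
  rw [map_smul, smul_eq_mul, e1, e2]
  simp only [Fin.sum_univ_three]
  ring

theorem wr_hol {α K B lam : ℝ} {v : E → E} (hα : 0 < α) (hK : 0 ≤ K) (hB : 0 ≤ B)
    (hlam : 1 ≤ lam) (hv : ∀ i, Hol α K (fun z => v z i)) (x : E) (J : E →L[ℝ] E)
    (hJ : ‖J‖ ≤ B) (m : Fin 3) :
    Hol α (3 * B * K * B ^ α) (fun Y => lam ^ (1 + α) * wr v x lam J Y m) := by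
  have hcd := contDiff_field hv
  have hlam0 : 0 < lam := by linarith
  refine ⟨?_, ?_⟩
  · unfold wr
    have h1 : ContDiff ℝ 1 (fun Y : E => x + lam⁻¹ • J Y) := by fun_prop
    have h3 : ContDiff ℝ 1 (fun Y : E => v (x + lam⁻¹ • J Y)) := hcd.comp h1
    have h4 : ContDiff ℝ 1 (fun Y : E => lam⁻¹ • fderiv ℝ v x (J Y)) := by fun_prop
    have h2 : ContDiff ℝ 1 (fun Y : E => v (x + lam⁻¹ • J Y) - v x -
        lam⁻¹ • fderiv ℝ v x (J Y)) := (h3.sub contDiff_const).sub h4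
    exact contDiff_const.mul (contDiff_pi.1 h2 m)
  · intro Y Y' j
    rw [wr_pd hcd, wr_pd hcd, ← mul_sub, ← Finset.sum_sub_distrib]
    have hterm : ∀ l : Fin 3, |J (ee j) l * (pd l (fun z => v z m) (x + lam⁻¹ • J Y) -
        pd l (fun z => v z m) x) - J (ee j) l * (pd l (fun z => v z m) (x + lam⁻¹ • J Y') -
        pd l (fun z => v z m) x)| ≤ B * (K * (lam⁻¹ ^ α * B ^ α * ‖Y - Y'‖ ^ α)) := by
      intro l
      have e : J (ee j) l * (pd l (fun z => v z m) (x + lam⁻¹ • J Y) -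
        pd l (fun z => v z m) x) - J (ee j) l * (pd l (fun z => v z m) (x + lam⁻¹ • J Y') -
        pd l (fun z => v z m) x) = J (ee j) l * (pd l (fun z => v z m) (x + lam⁻¹ • J Y) -
        pd l (fun z => v z m) (x + lam⁻¹ • J Y')) := by ring
      rw [e, abs_mul]
      apply mul_le_mul ((abs_le_n _ l).trans (Jee_le J B hJ j)) _ (abs_nonneg _) hB
      refine ((hv m).2 _ _ l).trans (mul_le_mul_of_nonneg_left ?_ hK)
      have e2 : (x + lam⁻¹ • J Y) - (x + lam⁻¹ • J Y') = lam⁻¹ • J (Y - Y') := by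
        rw [map_sub, smul_sub]; abel
      rw [e2, norm_smul, Real.norm_eq_abs, abs_of_pos (inv_pos.2 hlam0)]
      have h5 : lam⁻¹ * ‖J (Y - Y')‖ ≤ lam⁻¹ * (B * ‖Y - Y'‖) :=
        mul_le_mul_of_nonneg_left (J_le J B hJ _) (inv_pos.2 hlam0).le
      refine (Real.rpow_le_rpow (by positivity) h5 hα.le).trans (le_of_eq ?_)
      rw [Real.mul_rpow (inv_pos.2 hlam0).le (by positivity), Real.mul_rpow hB (norm_nonneg _)]
      ring
    have hsum := (Finset.abs_sum_le_sum_abs _ _).trans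
      (Finset.sum_le_sum fun l (_ : l ∈ Finset.univ) => hterm l)
    rw [Finset.sum_const, Finset.card_univ, Fintype.card_fin, nsmul_eq_mul] at hsum
    rw [abs_mul, abs_mul, abs_of_pos (Real.rpow_pos_of_pos hlam0 _),
      abs_of_pos (inv_pos.2 hlam0)]
    have hc : lam ^ (1 + α) * lam⁻¹ * (lam⁻¹ ^ α) = 1 := by
      rw [Real.rpow_add hlam0, Real.rpow_one, Real.inv_rpow hlam0.le]
      have : lam ^ α ≠ 0 := (Real.rpow_pos_of_pos hlam0 _).ne'
      field_simp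
    have hpos : 0 ≤ lam ^ (1 + α) * lam⁻¹ := by positivity
    refine (mul_le_mul_of_nonneg_left hsum hpos).trans (le_of_eq ?_)
    calc lam ^ (1 + α) * lam⁻¹ * (((3 : ℕ) : ℝ) * (B * (K * (lam⁻¹ ^ α * B ^ α * ‖Y - Y'‖ ^ α))))
        = (lam ^ (1 + α) * lam⁻¹ * (lam⁻¹ ^ α)) *
          (3 * B * K * B ^ α * ‖Y - Y'‖ ^ α) := by push_cast; ring
      _ = _ := by rw [hc, one_mul]

theorem wr_jet {α K lam c : ℝ} {v : E → E} (hv : ∀ i, Hol α K (fun z => v z i)) (x : E)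
    (J : E →L[ℝ] E) (m : Fin 3) : Jet0 (fun Y => c * wr v x lam J Y m) := by
  have hcd := contDiff_field hv
  refine ⟨?_, fun j => ?_⟩
  · simp [wr]
  · rw [wr_pd hcd]
    simp

theorem growth {α H : ℝ} {W : E → ℝ} (hα : 0 < α) (hH : 0 ≤ H) (hW : Hol α H W) (h0 : Jet0 W)
    (Y : E) : |W Y| ≤ 3 * H * ‖Y‖ ^ α * ‖Y‖ := by
  have hd : Differentiable ℝ W := hW.1.differentiable one_ne_zero
  have hb : ∀ Z ∈ Metric.closedBall (0 : E) ‖Y‖, ‖fderiv ℝ W Z‖ ≤ 3 * H * ‖Y‖ ^ α := by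
    intro Z hZ
    rw [Metric.mem_closedBall, dist_zero_right] at hZ
    apply ContinuousLinearMap.opNorm_le_bound _ (by positivity)
    intro w
    rw [clm_expand, Real.norm_eq_abs]
    have ht : ∀ l : Fin 3, |w l * (fderiv ℝ W Z) (Pi.single l 1)| ≤ ‖w‖ * (H * ‖Y‖ ^ α) := by
      intro l
      rw [abs_mul]
      apply mul_le_mul (abs_le_n w l) _ (abs_nonneg _) (norm_nonneg _)
      have h1 := hW.2 Z 0 l
      rw [h0.2 l, sub_zero, sub_zero] at h1
      refine h1.trans (mul_le_mul_of_nonneg_left (Real.rpow_le_rpow (norm_nonneg _) hZ hα.le) hH)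
    refine ((Finset.abs_sum_le_sum_abs _ _).trans (Finset.sum_le_sum fun l _ => ht l)).trans ?_
    simp only [Finset.sum_const, Finset.card_univ, Fintype.card_fin, nsmul_eq_mul]
    push_cast
    linarith
  have := (convex_closedBall (0 : E) ‖Y‖).norm_image_sub_le_of_norm_fderiv_le
    (fun z _ => hd z) hb (x := 0) (y := Y) (by simp) (by simp)
  rw [h0.1, sub_zero, sub_zero] at this
  exact this

/-! ### bounds of the derivative of the test field -/

theorem curlL_add (L M : E →L[ℝ] E) : curlL (L + M) = curlL L + curlL M := by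
  unfold curlL
  funext i
  fin_cases i <;> simp <;> ring

theorem curlL_smul (c : ℝ) (L : E →L[ℝ] E) : curlL (c • L) = c • curlL L := by
  unfold curlL
  funext i
  fin_cases i <;> simp <;> ring

theorem Q_tau (η : E → ℝ) (κ : E) (δ τ : ℝ) (b Y : E) :
    Qf η κ δ τ b Y = Real.cos τ • Qf η κ δ 0 b Y + Real.sin τ • Qf η κ δ (Real.pi / 2) b Y := by
  unfold Qf
  rw [add_zero, Real.sin_add, Real.sin_add_pi_div_two, smul_smul, smul_smul, ← add_smul]
  congr 1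
  ring

theorem T_tau (η : E → ℝ) (κ : E) (δ τ : ℝ) (b : E)
    (hQ : ∀ τ b, ContDiff ℝ 3 (Qf η κ δ τ b)) (Y : E) :
    Tf η κ δ τ b Y = Real.cos τ • Tf η κ δ 0 b Y + Real.sin τ • Tf η κ δ (Real.pi / 2) b Y := by
  unfold Tf
  have h : Qf η κ δ τ b = fun Y => Real.cos τ • Qf η κ δ 0 b Y +
      Real.sin τ • Qf η κ δ (Real.pi / 2) b Y := funext fun Y => Q_tau η κ δ τ b Y
  have hd : ∀ τ b, DifferentiableAt ℝ (Qf η κ δ τ b) Y := fun τ b =>
    ((hQ τ b).differentiable (by norm_num)) Y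
  rw [h]
  have h1 : fderiv ℝ (fun Y => Real.cos τ • Qf η κ δ 0 b Y +
      Real.sin τ • Qf η κ δ (Real.pi / 2) b Y) Y =
      Real.cos τ • fderiv ℝ (Qf η κ δ 0 b) Y + Real.sin τ • fderiv ℝ (Qf η κ δ (Real.pi / 2) b) Y :=
    (((hd 0 b).hasFDerivAt.const_smul (Real.cos τ)).add
      ((hd (Real.pi / 2) b).hasFDerivAt.const_smul (Real.sin τ))).fderiv
  rw [h1, curlL_add, curlL_smul, curlL_smul]

theorem dT_bound (hT : G_T1A) (η : E → ℝ) (κ : E) (hη : Bump η) (hκ : κ ⬝ᵥ κ = 1) (B : ℝ)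
    (hB : 0 ≤ B) (δ : ℝ) (hδ : δ ∈ Ioc (0 : ℝ) 1) :
    ∃ M : ℝ, 0 ≤ M ∧ ∀ (τ : ℝ) (b Y : E), ‖b‖ ≤ B → ‖fderiv ℝ (Tf η κ δ τ b) Y‖ ≤ M := by
  obtain ⟨-, h2⟩ := hT η κ hη hκ
  have hQ : ∀ τ b, ContDiff ℝ 3 (Qf η κ δ τ b) := fun τ b => ((h2 δ hδ τ).1 b).2.2.1
  have hb : ∀ (τ : ℝ) (l : Fin 3), ∃ C : ℝ, ∀ Y, ‖fderiv ℝ (Tf η κ δ τ (ee l)) Y‖ ≤ C := by
    intro τ l
    obtain ⟨hc, hs, -, -⟩ := (h2 δ hδ τ).1 (ee l)
    exact (hc.continuous_fderiv (by norm_num)).bounded_above_of_compact_support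
      (hs.fderiv ℝ)
  choose C hC using hb
  have hT1 : ∀ (τ : ℝ) (l : Fin 3) (Y : E), ‖fderiv ℝ (Tf η κ δ τ (ee l)) Y‖ ≤
      |C 0 l| + |C (Real.pi / 2) l| := by
    intro τ l Y
    have h : Tf η κ δ τ (ee l) = fun Y => Real.cos τ • Tf η κ δ 0 (ee l) Y +
      Real.sin τ • Tf η κ δ (Real.pi / 2) (ee l) Y := funext fun Y => T_tau η κ δ τ (ee l) hQ Y
    have hd : ∀ τ, DifferentiableAt ℝ (Tf η κ δ τ (ee l)) Y := fun τ =>
      (((h2 δ hδ τ).1 (ee l)).1.differentiable (by norm_num)) Y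
    rw [h]
    have h1 : fderiv ℝ (fun Y => Real.cos τ • Tf η κ δ 0 (ee l) Y +
        Real.sin τ • Tf η κ δ (Real.pi / 2) (ee l) Y) Y =
        Real.cos τ • fderiv ℝ (Tf η κ δ 0 (ee l)) Y +
        Real.sin τ • fderiv ℝ (Tf η κ δ (Real.pi / 2) (ee l)) Y :=
      (((hd 0).hasFDerivAt.const_smul (Real.cos τ)).add
        ((hd (Real.pi / 2)).hasFDerivAt.const_smul (Real.sin τ))).fderiv
    rw [h1]
    refine (norm_add_le _ _).trans ?_
    rw [norm_smul, norm_smul, Real.norm_eq_abs, Real.norm_eq_abs]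
    have a1 := mul_le_mul (Real.abs_cos_le_one τ) ((hC 0 l Y).trans (le_abs_self _))
      (norm_nonneg _) zero_le_one
    have a2 := mul_le_mul (Real.abs_sin_le_one τ) ((hC (Real.pi / 2) l Y).trans (le_abs_self _))
      (norm_nonneg _) zero_le_one
    linarith
  refine ⟨∑ l : Fin 3, B * (|C 0 l| + |C (Real.pi / 2) l|), Finset.sum_nonneg fun l _ => by
    positivity, ?_⟩
  intro τ b Y hbB
  have h : Tf η κ δ τ b = fun Y => ∑ l, b l • Tf η κ δ τ (ee l) Y :=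
    funext fun Y => (h2 δ hδ τ).2.2.2.1 b Y
  have hd : ∀ l, DifferentiableAt ℝ (Tf η κ δ τ (ee l)) Y := fun l =>
      (((h2 δ hδ τ).1 (ee l)).1.differentiable (by norm_num)) Y
  have h1 : fderiv ℝ (fun Y => ∑ l, b l • Tf η κ δ τ (ee l) Y) Y =
      ∑ l, b l • fderiv ℝ (Tf η κ δ τ (ee l)) Y :=
    (HasFDerivAt.fun_sum fun l _ => (hd l).hasFDerivAt.const_smul (b l)).fderiv
  rw [h, h1]
  refine (norm_sum_le _ _).trans (Finset.sum_le_sum fun l _ => ?_)
  rw [norm_smul, Real.norm_eq_abs]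
  exact mul_le_mul ((abs_le_n b l).trans hbB) (hT1 τ l Y) (norm_nonneg _) hB

/-! ### the first part -/

theorem comp_supp {g : E → ℝ} (hg : HasCompactSupport g) (δ : ℝ) (hδ : δ ≠ 0) (q : E) :
    HasCompactSupport (fun Y : E => g (δ • (Y + q))) :=
  hg.comp_homeomorph ((Homeomorph.addRight q).trans (Homeomorph.smulOfNeZero δ hδ))

theorem kappa_le {κ : E} (hκ : κ ⬝ᵥ κ = 1) : ‖κ‖ ≤ 1 := by
  apply norm_le_of _ _ zero_le_one
  rw [dotProduct, Fin.sum_univ_three] at hκ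
  intro i
  apply abs_le_of_sq_le_sq' _ zero_le_one |> abs_le.2
  fin_cases i
  · show κ 0 ^ 2 ≤ 1 ^ 2
    nlinarith [mul_self_nonneg (κ 1), mul_self_nonneg (κ 2)]
  · show κ 1 ^ 2 ≤ 1 ^ 2
    nlinarith [mul_self_nonneg (κ 0), mul_self_nonneg (κ 2)]
  · show κ 2 ^ 2 ≤ 1 ^ 2
    nlinarith [mul_self_nonneg (κ 0), mul_self_nonneg (κ 1)]

theorem cont_dot (κ : E) (τ : ℝ) : Continuous (fun Y : E => κ ⬝ᵥ Y + τ) := by
  unfold dotProduct
  fun_prop

theorem first_bound (hOSC : G_OSC) (hT : G_T1A) (α : ℝ) (η : E → ℝ) (κ : E) (h0 : 0 < α)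
    (h1 : α < 1) (hη : Bump η) (hκ : κ ⬝ᵥ κ = 1) :
    ∃ C : ℝ, 0 ≤ C ∧ ∀ (H : ℝ) (W : E → ℝ), 0 ≤ H → Hol α H W → Jet0 W → ∀ δ ∈ Ioc (0 : ℝ) 1,
      ∀ (τ : ℝ) (l : Fin 3),
      |δ ^ 3 * ∫ Y, W Y * (gth η κ δ Y l * Real.sin (κ ⬝ᵥ Y + τ))| ≤ C * H * δ := by
  have hg : ∀ l : Fin 3, ContDiff ℝ 2 (pd l η) := fun l =>
    (hη.1.fderiv_right (m := 2) (by norm_num)).clm_apply contDiff_const
  have hs : ∀ l : Fin 3, HasCompactSupport (pd l η) := fun l => hη.2.1.fderiv_apply ℝ _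
  have hex := fun l : Fin 3 => hOSC α (pd l η) κ h0 h1 (hg l) (hs l) hκ
  choose C hC0 hC using hex
  refine ⟨∑ l, C l, Finset.sum_nonneg fun l _ => hC0 l, ?_⟩
  intro H W hH hW hJ δ hδ τ l
  have hform : ∀ Y, gth η κ δ Y = fun j => δ / 2 * (pd j η (δ • Y) +
      pd j η (δ • (Y + Real.pi • κ))) := fun Y => ((hT η κ hη hκ).2 δ hδ τ).2.2.2.2.2 Y
  have hint : ∀ q : E, Integrable (fun Y => W Y * pd l η (δ • (Y + q)) *
      Real.cos (κ ⬝ᵥ Y + (τ - Real.pi / 2))) := by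
    intro q
    apply Continuous.integrable_of_hasCompactSupport
    · exact (hW.1.continuous.mul ((hg l).continuous.comp (by fun_prop))).mul
        (Real.continuous_cos.comp (cont_dot κ _))
    · exact ((comp_supp (hs l) δ hδ.1.ne' q).mul_left).mul_right
  have e : ∫ Y, W Y * (gth η κ δ Y l * Real.sin (κ ⬝ᵥ Y + τ)) =
      δ / 2 * ((∫ Y, W Y * pd l η (δ • (Y + 0)) * Real.cos (κ ⬝ᵥ Y + (τ - Real.pi / 2))) +
        ∫ Y, W Y * pd l η (δ • (Y + Real.pi • κ)) *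
          Real.cos (κ ⬝ᵥ Y + (τ - Real.pi / 2))) := by
    rw [← integral_add (hint 0) (hint _), ← integral_const_mul]
    congr 1
    funext Y
    rw [hform Y, ← add_sub_assoc, Real.cos_sub_pi_div_two, add_zero]
    ring
  rw [e]
  have hpi : ‖Real.pi • κ‖ ≤ 4 := by
    rw [norm_smul, Real.norm_eq_abs, abs_of_pos Real.pi_pos]
    have := mul_le_mul Real.pi_le_four (kappa_le hκ) (norm_nonneg _) (by norm_num)
    linarith
  have b0 := hC l H W hH hW hJ δ hδ (τ - Real.pi / 2) 0 (by simp)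
  have b1 := hC l H W hH hW hJ δ hδ (τ - Real.pi / 2) (Real.pi • κ) hpi
  have hsum : C l ≤ ∑ l, C l := Finset.single_le_sum (fun i _ => hC0 i) (Finset.mem_univ l)
  have h3 : C l * H ≤ (∑ l, C l) * H := mul_le_mul_of_nonneg_right hsum hH
  rw [abs_le] at b0 b1 ⊢
  have hd := hδ.1
  constructor <;> nlinarith

theorem evb (hOSC : G_OSC) (hT : G_T1A) : G_EVB := by
  intro α η κ K B h0 h1 hη hκ hK hB
  obtain ⟨C0, hC0, hC⟩ := first_bound hOSC hT α η κ h0 h1 hη hκ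
  obtain ⟨⟨R, hR⟩, hT2⟩ := hT η κ hη hκ
  set H : ℝ := 3 * B * K * B ^ α with hHdef
  have hH : 0 ≤ H := by positivity
  set S : ℝ := 9 * B ^ 3 + 6 * B ^ 2 with hSdef
  set P : ℝ := 2 * B with hPdef
  set CC : ℝ := 3 * ((6 * B ^ 2) * (S + 6 * B ^ 2 * P + 4 * B * P)) with hCCdef
  have hCC : 0 ≤ CC := by positivity
  refine ⟨9 * (CC * (C0 * H)), ?_⟩
  intro δ hδ
  obtain ⟨M, hM0, hM⟩ := dT_bound hT η κ hη hκ B hB δ hδ
  set ρ : ℝ := |R| / δ with hρdef
  have hρ : 0 ≤ ρ := div_nonneg (abs_nonneg _) hδ.1.le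
  set A : ℝ := 3 * H * ρ ^ α * ρ with hAdef
  have hA : 0 ≤ A := by positivity
  refine ⟨δ ^ 3 * (54 * B ^ 3 * M * A ^ 2 * volume.real (Metric.closedBall (0 : E) ρ)), ?_⟩
  intro v x om b b' J lam τ hv hdet hJ hom hb hb' hlam
  have hlam0 : 0 < lam := by linarith
  set c : ℝ := lam ^ (1 + α) with hcdef
  have hc : 0 < c := Real.rpow_pos_of_pos hlam0 _
  have hcd := contDiff_field hv
  have hWhol := fun m => wr_hol h0 hK hB hlam hv x J hJ m
  have hWjet := fun m => wr_jet (lam := lam) (c := c) hv x J m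
  set s : ℝ := κ ⬝ᵥ (trn J (J b') + crossProduct om b) with hsdef
  set p : E := crossProduct κ b with hpdef
  set p' : E := crossProduct κ b' with hp'def
  have hκ1 := kappa_le hκ
  have hpP : ‖p‖ ≤ P := by
    have := cross_le κ b
    have h2 := mul_le_mul hκ1 hb (norm_nonneg _) zero_le_one
    linarith
  have hpP' : ‖p'‖ ≤ P := by
    have := cross_le κ b'
    have h2 := mul_le_mul hκ1 hb' (norm_nonneg _) zero_le_one
    linarith
  have hsS : |s| ≤ S := by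
    have a1 := dot_le κ (trn J (J b') + crossProduct om b)
    have a2 : ‖trn J (J b') + crossProduct om b‖ ≤ 3 * B ^ 3 + 2 * B ^ 2 := by
      refine (norm_add_le _ _).trans ?_
      have b1 := trn_le J B hB hJ (J b')
      have b2 : ‖J b'‖ ≤ B * B := (J_le J B hJ b').trans (mul_le_mul_of_nonneg_left hb' hB)
      have b3 : 3 * B * ‖J b'‖ ≤ 3 * B * (B * B) := mul_le_mul_of_nonneg_left b2 (by positivity)
      have b4 := cross_le om b
      have b5 := mul_le_mul hom hb (norm_nonneg _) hB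
      nlinarith
    have a3 := mul_le_mul hκ1 a2 (norm_nonneg _) zero_le_one
    linarith
  have hcc := fun m l => cc_le J s om p p' B S P hB hJ hsS hom hpP hpP' m l
  -- continuity and support
  have hwrc : ∀ m, Continuous (fun Y => wr v x lam J Y m) := by
    intro m
    have h2 : (fun Y => wr v x lam J Y m) = fun Y => c⁻¹ * (c * wr v x lam J Y m) := by
      funext Y
      rw [← mul_assoc, inv_mul_cancel₀ hc.ne', one_mul]
    rw [h2]
    exact continuous_const.mul (hWhol m).1.continuous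
  have hwrc' : Continuous (fun Y => wr v x lam J Y) := continuous_pi hwrc
  have hgthc : ∀ l, Continuous (fun Y => gth η κ δ Y l) := by
    intro l
    have h3 := ((hT2 δ hδ τ).2.1.continuous_fderiv (by norm_num)).clm_apply
      (continuous_const (y := (Pi.single l (1 : ℝ) : E)))
    exact h3
  have hgths : ∀ l, HasCompactSupport (fun Y => gth η κ δ Y l) := by
    intro l
    exact (hT2 δ hδ τ).2.2.1.fderiv_apply ℝ _
  -- the first part
  have hI : ∀ m l, Integrable (fun Y => (c * wr v x lam J Y m) *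
      (gth η κ δ Y l * Real.sin (κ ⬝ᵥ Y + τ))) := by
    intro m l
    apply Continuous.integrable_of_hasCompactSupport
    · exact (continuous_const.mul (hwrc m)).mul ((hgthc l).mul
        (Real.continuous_sin.comp (cont_dot κ _)))
    · exact ((hgths l).mul_right).mul_left
  set F1 : E → ℝ := fun Y => -(Real.sin (κ ⬝ᵥ Y + τ) * (inv3 J (wr v x lam J Y) ⬝ᵥ
      Lv J s om p p' (gth η κ δ Y))) with hF1
  have hF1e : ∀ Y, F1 Y = ∑ m, ∑ l, -(c⁻¹ * cc J s om p p' m l) *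
      ((c * wr v x lam J Y m) * (gth η κ δ Y l * Real.sin (κ ⬝ᵥ Y + τ))) := by
    intro Y
    rw [hF1]
    beta_reduce
    rw [first_expand, Finset.mul_sum, ← Finset.sum_neg_distrib]
    apply Finset.sum_congr rfl
    intro m _
    rw [Finset.mul_sum, ← Finset.sum_neg_distrib]
    apply Finset.sum_congr rfl
    intro l _
    field_simp
  have hF1i : Integrable F1 := by
    have : F1 = fun Y => ∑ m, ∑ l, -(c⁻¹ * cc J s om p p' m l) *
      ((c * wr v x lam J Y m) * (gth η κ δ Y l * Real.sin (κ ⬝ᵥ Y + τ))) := funext hF1e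
    rw [this]
    exact integrable_finsetSum _ fun m _ => integrable_finsetSum _ fun l _ =>
      (hI m l).const_mul _
  have hF1b : |δ ^ 3 * c * ∫ Y, F1 Y| ≤ 9 * (CC * (C0 * H)) * δ := by
    have e1 : ∫ Y, F1 Y = ∑ m, ∑ l, -(c⁻¹ * cc J s om p p' m l) *
        ∫ Y, (c * wr v x lam J Y m) * (gth η κ δ Y l * Real.sin (κ ⬝ᵥ Y + τ)) := by
      rw [integral_congr_ae (Filter.Eventually.of_forall hF1e),
        integral_finsetSum _ fun m _ => integrable_finsetSum _ fun l _ => (hI m l).const_mul _]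
      apply Finset.sum_congr rfl
      intro m _
      rw [integral_finsetSum _ fun l _ => (hI m l).const_mul _]
      apply Finset.sum_congr rfl
      intro l _
      rw [integral_const_mul]
    have e2 : δ ^ 3 * c * ∫ Y, F1 Y = ∑ m, ∑ l, -(cc J s om p p' m l) *
        (δ ^ 3 * ∫ Y, (c * wr v x lam J Y m) * (gth η κ δ Y l * Real.sin (κ ⬝ᵥ Y + τ))) := by
      rw [e1, Finset.mul_sum]
      apply Finset.sum_congr rfl
      intro m _
      rw [Finset.mul_sum]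
      apply Finset.sum_congr rfl
      intro l _
      field_simp
    rw [e2]
    have hb1 : ∀ m l, |-(cc J s om p p' m l) * (δ ^ 3 * ∫ Y, (c * wr v x lam J Y m) *
        (gth η κ δ Y l * Real.sin (κ ⬝ᵥ Y + τ)))| ≤ CC * (C0 * H * δ) := by
      intro m l
      rw [abs_mul, abs_neg]
      exact mul_le_mul (hcc m l) (hC H _ hH (hWhol m) (hWjet m) δ hδ τ l) (abs_nonneg _) hCC
    refine (Finset.abs_sum_le_sum_abs _ _).trans ((Finset.sum_le_sum fun m _ =>
      (Finset.abs_sum_le_sum_abs _ _).trans (Finset.sum_le_sum fun l _ => hb1 m l)).trans ?_)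
    simp only [Finset.sum_const, Finset.card_univ, Fintype.card_fin, nsmul_eq_mul]
    push_cast
    linarith
  -- the second part
  set F2 : E → ℝ := fun Y => lam * (wr v x lam J Y ⬝ᵥ
    J (fderiv ℝ (Tf η κ δ τ b) Y (inv3 J (wr v x lam J Y)))) with hF2
  have hz : ∀ Y, Y ∉ Metric.closedBall (0 : E) ρ → F2 Y = 0 := by
    intro Y hY
    rw [Metric.mem_closedBall, dist_zero_right, not_le] at hY
    have h4 : R / δ ≤ ‖Y‖ := by
      refine le_trans ?_ hY.le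
      exact div_le_div_of_nonneg_right (le_abs_self R) hδ.1.le
    have h5 := (hR δ hδ τ b Y h4).2.1
    rw [hF2]
    beta_reduce
    rw [h5]
    simp
  have hinvc : Continuous (fun Y => inv3 J (wr v x lam J Y)) := by
    unfold inv3
    apply continuous_pi
    intro i
    unfold dotProduct
    apply continuous_finsetSum
    intro m _
    exact continuous_const.mul (hwrc m)
  have hDc : Continuous (fun Y => fderiv ℝ (Tf η κ δ τ b) Y) :=
    ((hT2 δ hδ τ).1 b).1.continuous_fderiv (by norm_num)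
  have hF2c : Continuous F2 := by
    rw [hF2]
    have h6 : Continuous (fun Y => J (fderiv ℝ (Tf η κ δ τ b) Y (inv3 J (wr v x lam J Y)))) :=
      J.continuous.comp (hDc.clm_apply hinvc)
    unfold dotProduct
    apply continuous_const.mul
    apply continuous_finsetSum
    intro m _
    exact (hwrc m).mul ((continuous_apply m).comp h6)
  have hF2s : HasCompactSupport F2 := HasCompactSupport.intro (isCompact_closedBall 0 ρ) hz
  have hF2i : Integrable F2 := hF2c.integrable_of_hasCompactSupport hF2s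
  have hwrb : ∀ Y ∈ Metric.closedBall (0 : E) ρ, ‖wr v x lam J Y‖ ≤ A / c := by
    intro Y hY
    rw [Metric.mem_closedBall, dist_zero_right] at hY
    apply norm_le_of _ _ (by positivity)
    intro m
    have h7 := growth h0 hH (hWhol m) (hWjet m) Y
    rw [abs_mul, abs_of_pos hc] at h7
    rw [le_div_iff₀ hc, mul_comm]
    refine h7.trans ?_
    rw [hAdef]
    have h8 : ‖Y‖ ^ α ≤ ρ ^ α := Real.rpow_le_rpow (norm_nonneg _) hY h0.le
    have h9 : 0 ≤ ‖Y‖ ^ α := by positivity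
    have h10 : ‖Y‖ ^ α * ‖Y‖ ≤ ρ ^ α * ρ := mul_le_mul h8 hY (norm_nonneg _) (h9.trans h8)
    nlinarith
  have hF2b : ∀ Y ∈ Metric.closedBall (0 : E) ρ, ‖F2 Y‖ ≤
      54 * B ^ 3 * M * (A / c) ^ 2 * lam := by
    intro Y hY
    have w1 := hwrb Y hY
    have hAc : 0 ≤ A / c := by positivity
    rw [hF2]
    beta_reduce
    rw [Real.norm_eq_abs, abs_mul, abs_of_pos hlam0]
    have i1 : ‖inv3 J (wr v x lam J Y)‖ ≤ 18 * B ^ 2 * (A / c) :=
      (inv_le J B hB hJ _).trans (mul_le_mul_of_nonneg_left w1 (by positivity))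
    have i2 : ‖fderiv ℝ (Tf η κ δ τ b) Y (inv3 J (wr v x lam J Y))‖ ≤
        M * (18 * B ^ 2 * (A / c)) :=
      ((fderiv ℝ (Tf η κ δ τ b) Y).le_of_opNorm_le (hM τ b Y hb) _).trans
        (mul_le_mul_of_nonneg_left i1 hM0)
    have i3 : ‖J (fderiv ℝ (Tf η κ δ τ b) Y (inv3 J (wr v x lam J Y)))‖ ≤
        B * (M * (18 * B ^ 2 * (A / c))) :=
      (J_le J B hJ _).trans (mul_le_mul_of_nonneg_left i2 hB)
    have i4 := mul_le_mul w1 i3 (norm_nonneg _) hAc
    have i5 := (dot_le _ _).trans (mul_le_mul_of_nonneg_left i4 (by norm_num : (0 : ℝ) ≤ 3))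
    refine (mul_le_mul_of_nonneg_left i5 hlam0.le).trans (le_of_eq ?_)
    ring
  have hF2int : |∫ Y, F2 Y| ≤ 54 * B ^ 3 * M * (A / c) ^ 2 * lam *
      volume.real (Metric.closedBall (0 : E) ρ) := by
    rw [← setIntegral_eq_integral_of_forall_compl_eq_zero (s := Metric.closedBall (0 : E) ρ) hz]
    exact norm_setIntegral_le_of_norm_le_const (measure_closedBall_lt_top) hF2b
  have hrhs : rhs η v x om κ J lam δ τ b b' = (∫ Y, F1 Y) + ∫ Y, F2 Y := by
    rw [← integral_add hF1i hF2i]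
    rfl
  rw [hrhs]
  have hlc : c * ((1 / c) ^ 2 * lam) = lam ^ (-α) := by
    rw [hcdef, Real.rpow_add hlam0, Real.rpow_one, Real.rpow_neg hlam0.le]
    have : lam ^ α ≠ 0 := (Real.rpow_pos_of_pos hlam0 _).ne'
    field_simp
  have hV : 0 ≤ volume.real (Metric.closedBall (0 : E) ρ) := measureReal_nonneg
  have hF2f : |δ ^ 3 * c * ∫ Y, F2 Y| ≤
      δ ^ 3 * (54 * B ^ 3 * M * A ^ 2 * volume.real (Metric.closedBall (0 : E) ρ)) *
        lam ^ (-α) := by
    have hd3 : 0 ≤ δ ^ 3 * c := mul_nonneg (pow_nonneg hδ.1.le 3) hc.le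
    rw [abs_mul, abs_of_nonneg hd3, ← hlc]
    refine (mul_le_mul_of_nonneg_left hF2int hd3).trans (le_of_eq ?_)
    have : A / c = A * (1 / c) := by ring
    rw [this]
    ring
  have hsplit : δ ^ 3 * c * ((∫ Y, F1 Y) + ∫ Y, F2 Y) =
      δ ^ 3 * c * (∫ Y, F1 Y) + δ ^ 3 * c * ∫ Y, F2 Y := by ring
  rw [hsplit]
  exact (abs_add_le _ _).trans (add_le_add hF1b hF2f)

end Pool.Agent.Helper65.Torus
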